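import Mathlib

/-!
# Starshapedness from points of local nonconvexity

Core lemmas for the Krasnosel'skii-type theorem: a compact connected set in `ℝ^d` any `d + 1` of
whose points of local nonconvexity are clearly visible from a common point is starshaped.
-/

namespace H791.Star

open Set Metric Topology

/-- Euclidean space of dimension `d`. -/
abbrev Eu (d : ℕ) := EuclideanSpace ℝ (Fin d)

/-- The point `y` sees the point `x` in `E`: the closed segment from `y` to `x` lies in `E`. -/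
def Sees {d : ℕ} (E : Set (Eu d)) (y x : Eu d) : Prop := segment ℝ y x ⊆ E

/-- `x` is a locally nonconvex (LNC) point of `E`: a boundary point of `E` such that
`B_r(x) ∩ E` fails to be convex for every `r > 0`. -/
def LNC {d : ℕ} (E : Set (Eu d)) (x : Eu d) : Prop :=
  x ∈ frontier E ∧ ∀ r : ℝ, 0 < r → ¬ Convex ℝ (ball x r ∩ E)

/-- `x` is clearly visible from the point `y` of `E`: for some `r > 0`, `y` sees every point of
`B_r(x) ∩ E`. -/
def ClearlySees {d : ℕ} (E : Set (Eu d)) (y x : Eu d) : Prop :=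
  y ∈ E ∧ ∃ r : ℝ, 0 < r ∧ ∀ v ∈ ball x r ∩ E, Sees E y v

/-- Property `C_n`: for any LNC points `x_1, …, x_n` of `E` (not necessarily distinct) there is a
point of `E` from which all of them are clearly visible. -/
def PropC {d : ℕ} (n : ℕ) (E : Set (Eu d)) : Prop :=
  ∀ x : Fin n → Eu d, (∀ i, LNC E (x i)) → ∃ y, ∀ i, ClearlySees E y (x i)

/-- `E` is starshaped: some point of `E` sees every point of `E`. -/
def Starshaped {d : ℕ} (E : Set (Eu d)) : Prop := ∃ p ∈ E, ∀ y ∈ E, Sees E p y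

variable {d : ℕ} {E : Set (Eu d)}

/-- At a point of `E` which is not LNC, `E` is locally convex. -/
lemma exists_convex_ball {g : Eu d} (hg : g ∈ E) (h : ¬ LNC E g) :
    ∃ r : ℝ, 0 < r ∧ Convex ℝ (ball g r ∩ E) := by
  by_cases hf : g ∈ frontier E
  · unfold LNC at h
    push Not at h
    obtain ⟨r, hr, hc⟩ := h hf
    exact ⟨r, hr, hc⟩
  · have hi : g ∈ interior E := by
      have h1 : g ∈ closure E := subset_closure hg
      by_contra hni
      exact hf ⟨h1, hni⟩
    obtain ⟨r, hr, hb⟩ := Metric.isOpen_iff.1 isOpen_interior g hi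
    refine ⟨r, hr, ?_⟩
    have : ball g r ∩ E = ball g r :=
      inter_eq_left.2 (hb.trans interior_subset)
    rw [this]
    exact convex_ball g r

/-- Upper level sets. -/
def Lev (E : Set (Eu d)) (L : Eu d → ℝ) (t : ℝ) : Set (Eu d) := E ∩ {w | t ≤ L w}

/-- The property propagated in the proof: some relatively clopen part `D` of the level set
`{L ≥ t}` contains `x` and lies in `{L ≤ 0}`. -/
def P (E : Set (Eu d)) (L : Eu d → ℝ) (x : Eu d) (t : ℝ) : Prop :=
  ∃ D : Set (Eu d), IsClosed D ∧ IsClosed (Lev E L t \ D) ∧ D ⊆ Lev E L t ∧ x ∈ D ∧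
    ∀ w ∈ D, L w ≤ 0

/-- The standing assumptions on the affine functional `L`. -/
structure Good (E : Set (Eu d)) (L : Eu d → ℝ) (x : Eu d) : Prop where
  cont : Continuous L
  aff : ∀ a b : Eu d, ∀ s : ℝ, L (a + s • (b - a)) = L a + s * (L b - L a)
  hxE : x ∈ E
  hx : L x = 0
  see : ∀ w, Sees E w x → L w ≤ 0
  star : ∀ z, LNC E z → ∃ w, ClearlySees E w z ∧ 0 < L w

lemma mem_seg (a b : Eu d) {s : ℝ} (h0 : 0 ≤ s) (h1 : s ≤ 1) : a + s • (b - a) ∈ segment ℝ a b := by
  rw [segment_eq_image']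
  exact ⟨s, ⟨h0, h1⟩, rfl⟩

lemma seg_L {L : Eu d → ℝ} (aff : ∀ a b : Eu d, ∀ s : ℝ, L (a + s • (b - a)) = L a + s * (L b - L a))
    {a b : Eu d} {t : ℝ} (ha : t ≤ L a) (hb : t ≤ L b) : segment ℝ a b ⊆ {w | t ≤ L w} := by
  intro w hw
  rw [segment_eq_image'] at hw
  obtain ⟨s, ⟨h0, h1⟩, rfl⟩ := hw
  simp only [mem_ofPred_eq]
  rw [aff]
  nlinarith

lemma isClosed_Lev (hE : IsClosed E) {L : Eu d → ℝ} (hL : Continuous L) (t : ℝ) :
    IsClosed (Lev E L t) :=
  hE.inter (isClosed_le continuous_const hL)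

/-- If near `u` (a point with `L u = 0`) the set `E` lies in `{L ≤ 0}`, then `u` sees only points
of `{L ≤ 0}`. -/
lemma see_nonpos {L : Eu d → ℝ} (aff : ∀ a b : Eu d, ∀ s : ℝ, L (a + s • (b - a)) = L a + s * (L b - L a))
    {u y : Eu d} (hu : 0 ≤ L u) {r : ℝ} (hr : 0 < r) (hball : ∀ w ∈ ball u r ∩ E, L w ≤ 0)
    (hs : segment ℝ u y ⊆ E) : L y ≤ 0 := by
  by_contra hpos
  push Not at hpos
  -- choose small s
  obtain ⟨s, hs0, hs1, hsr⟩ : ∃ s : ℝ, 0 < s ∧ s ≤ 1 ∧ s * ‖y - u‖ < r := by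
    have hn : 0 ≤ ‖y - u‖ := norm_nonneg _
    refine ⟨min 1 (r / (2 * (‖y - u‖ + 1))), ?_, min_le_left _ _, ?_⟩
    · apply lt_min one_pos
      positivity
    · have h2 : min 1 (r / (2 * (‖y - u‖ + 1))) ≤ r / (2 * (‖y - u‖ + 1)) := min_le_right _ _
      calc min 1 (r / (2 * (‖y - u‖ + 1))) * ‖y - u‖
          ≤ r / (2 * (‖y - u‖ + 1)) * ‖y - u‖ := by gcongr
        _ = r / 2 * (‖y - u‖ / (‖y - u‖ + 1)) := by field_simp
        _ ≤ r / 2 * 1 := by
            gcongr
            rw [div_le_one (by positivity)]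
            linarith
        _ < r := by linarith
  have hmem : u + s • (y - u) ∈ E := hs (mem_seg u y hs0.le hs1)
  have hb : u + s • (y - u) ∈ ball u r := by
    rw [mem_ball, dist_eq_norm]
    have : u + s • (y - u) - u = s • (y - u) := by abel
    rw [this, norm_smul, Real.norm_eq_abs, abs_of_pos hs0]
    exact hsr
  have h3 := hball _ ⟨hb, hmem⟩
  rw [aff] at h3
  have h4 := hball u ⟨mem_ball_self hr, hs (left_mem_segment ℝ u y)⟩
  have h5 : L u = 0 := le_antisymm h4 hu
  rw [h5] at h3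
  nlinarith

/-- The open set of points near which `E` lies in `{L ≤ 0}`. -/
def O (E : Set (Eu d)) (L : Eu d → ℝ) : Set (Eu d) :=
  {u | ∃ r : ℝ, 0 < r ∧ ∀ w ∈ ball u r ∩ E, L w ≤ 0}

lemma isOpen_O (E : Set (Eu d)) (L : Eu d → ℝ) : IsOpen (O E L) := by
  rw [Metric.isOpen_iff]
  rintro u ⟨r, hr, h⟩
  refine ⟨r / 2, by linarith, ?_⟩
  intro v hv
  refine ⟨r / 2, by linarith, ?_⟩
  rintro w ⟨hw, hwE⟩
  apply h w ⟨?_, hwE⟩
  rw [mem_ball] at *
  calc dist w u ≤ dist w v + dist v u := dist_triangle _ _ _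
    _ < r := by linarith

lemma P_zero (hE : IsClosed E) {L : Eu d → ℝ} {x : Eu d} (G : Good E L x) : P E L x 0 := by
  have hX := isClosed_Lev hE G.cont 0
  refine ⟨Lev E L 0 ∩ O E L, ?_, ?_, inter_subset_left, ?_, ?_⟩
  · -- closedness
    rw [← closure_subset_iff_isClosed]
    intro u hu
    have huX : u ∈ Lev E L 0 := by
      have := closure_mono (inter_subset_left : Lev E L 0 ∩ O E L ⊆ Lev E L 0) hu
      rwa [hX.closure_eq] at this
    refine ⟨huX, ?_⟩
    by_cases hl : LNC E u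
    · exfalso
      obtain ⟨w, ⟨hwE, r, hr, hsee⟩, hw⟩ := G.star u hl
      obtain ⟨u', hu'D, hu'⟩ := Metric.mem_closure_iff.1 hu r hr
      obtain ⟨⟨hu'E, hu'L⟩, r', hr', hb'⟩ := hu'D
      have hs : segment ℝ w u' ⊆ E := hsee u' ⟨by rwa [mem_ball, dist_comm], hu'E⟩
      rw [segment_symm] at hs
      have := see_nonpos G.aff hu'L hr' hb' hs
      linarith
    · obtain ⟨r, hr, hc⟩ := exists_convex_ball huX.1 hl
      obtain ⟨u', hu'D, hu'⟩ := Metric.mem_closure_iff.1 hu r hr
      obtain ⟨⟨hu'E, hu'L⟩, r', hr', hb'⟩ := hu'D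
      refine ⟨r, hr, ?_⟩
      intro y hy
      have hs : segment ℝ u' y ⊆ E := by
        have h1 : u' ∈ ball u r ∩ E := ⟨by rwa [mem_ball, dist_comm], hu'E⟩
        exact (hc.segment_subset h1 hy).trans inter_subset_right
      exact see_nonpos G.aff hu'L hr' hb' hs
  · have : Lev E L 0 \ (Lev E L 0 ∩ O E L) = Lev E L 0 ∩ (O E L)ᶜ := by
      ext w; simp only [mem_sdiff, mem_inter_iff, mem_compl_iff]; tauto
    rw [this]
    exact hX.inter (isOpen_O E L).isClosed_compl
  · refine ⟨⟨G.hxE, by simp [G.hx]⟩, ?_⟩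
    by_cases hl : LNC E x
    · exfalso
      obtain ⟨w, ⟨hwE, r, hr, hsee⟩, hw⟩ := G.star x hl
      have := G.see w (hsee x ⟨mem_ball_self hr, G.hxE⟩)
      linarith
    · obtain ⟨r, hr, hc⟩ := exists_convex_ball G.hxE hl
      refine ⟨r, hr, ?_⟩
      intro y hy
      apply G.see y
      exact (hc.segment_subset hy ⟨mem_ball_self hr, G.hxE⟩).trans inter_subset_right
  · rintro w ⟨⟨hwE, _⟩, r, hr, h⟩
    exact h w ⟨mem_ball_self hr, hwE⟩

/-- A preconnected subset of a union of two disjoint closed sets which meets the first one lies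
in the first one. -/
lemma subset_of_preconn {S D X : Set (Eu d)} (hS : IsPreconnected S) (hD : IsClosed D)
    (hF : IsClosed (X \ D)) (hSX : S ⊆ X) {a : Eu d} (haS : a ∈ S) (haD : a ∈ D) : S ⊆ D := by
  intro b hb
  by_contra hbD
  have h := isPreconnected_closed_iff.1 hS D (X \ D) hD hF
    (fun w hw => by
      by_cases hwD : w ∈ D
      · exact Or.inl hwD
      · exact Or.inr ⟨hSX hw, hwD⟩) ⟨a, haS, haD⟩ ⟨b, hb, hSX hb, hbD⟩
  obtain ⟨w, _, hw1, hw2⟩ := h
  exact hw2.2 hw1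

lemma P_mono {L : Eu d → ℝ} {x : Eu d} (G : Good E L x) {s t : ℝ}
    (hst : t ≤ s) (hs : s ≤ 0) (h : P E L x t) : P E L x s := by
  obtain ⟨D, hD, hF, hDX, hxD, hneg⟩ := h
  have hcl : IsClosed {w : Eu d | s ≤ L w} := isClosed_le continuous_const G.cont
  refine ⟨D ∩ {w | s ≤ L w}, hD.inter hcl, ?_, ?_, ⟨hxD, by simp [G.hx, hs]⟩,
    fun w hw => hneg w hw.1⟩
  · have : Lev E L s \ (D ∩ {w | s ≤ L w}) = (Lev E L t \ D) ∩ {w | s ≤ L w} := by
      ext w
      simp only [Lev, mem_sdiff, mem_inter_iff, mem_ofPred_eq]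
      constructor
      · rintro ⟨⟨h1, h2⟩, h3⟩
        exact ⟨⟨⟨h1, hst.trans h2⟩, fun hw => h3 ⟨hw, h2⟩⟩, h2⟩
      · rintro ⟨⟨⟨h1, h2⟩, h3⟩, h4⟩
        exact ⟨⟨h1, h4⟩, fun hw => h3 hw.1⟩
    rw [this]
    exact hF.inter hcl
  · rintro w ⟨hw, hw2⟩
    exact ⟨(hDX hw).1, hw2⟩

lemma P_open (hE : IsCompact E) {L : Eu d → ℝ} {x : Eu d} (G : Good E L x) {t : ℝ}
    (ht : t ≤ 0) (h : P E L x t) : ∃ t' < t, P E L x t' := by
  obtain ⟨D, hD, hF, hDX, hxD, hneg⟩ := h
  have hDO : D ⊆ O E L := by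
    intro g hg
    have hgX := hDX hg
    by_cases hl : LNC E g
    · exfalso
      obtain ⟨w, ⟨hwE, r, hr, hsee⟩, hw⟩ := G.star g hl
      have hs : segment ℝ w g ⊆ E := hsee g ⟨mem_ball_self hr, hgX.1⟩
      have hsX : segment ℝ w g ⊆ Lev E L t :=
        subset_inter hs (seg_L G.aff (by linarith) hgX.2)
      have := subset_of_preconn (convex_segment w g).isPreconnected hD hF hsX
        (right_mem_segment ℝ w g) hg (left_mem_segment ℝ w g)
      have := hneg w this
      linarith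
    · obtain ⟨r, hr, hc⟩ := exists_convex_ball hgX.1 hl
      refine ⟨r, hr, ?_⟩
      intro y hy
      by_contra hy0
      push Not at hy0
      have hs : segment ℝ g y ⊆ E :=
        (hc.segment_subset ⟨mem_ball_self hr, hgX.1⟩ hy).trans inter_subset_right
      have hsX : segment ℝ g y ⊆ Lev E L t :=
        subset_inter hs (seg_L G.aff hgX.2 (by linarith))
      have := subset_of_preconn (convex_segment g y).isPreconnected hD hF hsX
        (left_mem_segment ℝ g y) hg (right_mem_segment ℝ g y)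
      have := hneg y this
      linarith
  have hdisj : Disjoint D (Lev E L t \ D) := disjoint_sdiff_right
  obtain ⟨U, V, hU, hV, hDU, hFV, hUV⟩ := normal_separation hD hF hdisj
  -- the remaining compact set lies strictly below level t
  have hK : IsCompact (E \ ((U ∩ O E L) ∪ V)) :=
    hE.diff ((hU.inter (isOpen_O E L)).union hV)
  have hKlt : ∀ w ∈ E \ ((U ∩ O E L) ∪ V), L w < t := by
    rintro w ⟨hwE, hw⟩
    by_contra hge
    push Not at hge
    apply hw
    by_cases hwD : w ∈ D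
    · exact Or.inl ⟨hDU hwD, hDO hwD⟩
    · exact Or.inr (hFV ⟨⟨hwE, hge⟩, hwD⟩)
  obtain ⟨t', ht', hcov⟩ : ∃ t' < t, Lev E L t' ⊆ (U ∩ O E L) ∪ V := by
    rcases (E \ ((U ∩ O E L) ∪ V)).eq_empty_or_nonempty with he | hne
    · refine ⟨t - 1, by linarith, ?_⟩
      intro w hw
      by_contra hw2
      have : w ∈ E \ ((U ∩ O E L) ∪ V) := ⟨hw.1, hw2⟩
      rw [he] at this
      exact this
    · obtain ⟨m, hm, hmax⟩ := hK.exists_isMaxOn hne G.cont.continuousOn
      refine ⟨(L m + t) / 2, by linarith [hKlt m hm], ?_⟩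
      intro w hw
      by_contra hw2
      have h1 : w ∈ E \ ((U ∩ O E L) ∪ V) := ⟨hw.1, hw2⟩
      have h2 : L w ≤ L m := hmax h1
      have h3 : (L m + t) / 2 ≤ L w := hw.2
      linarith [hKlt m hm]
  refine ⟨t', ht', Lev E L t' \ V, ?_, ?_, sdiff_subset, ?_, ?_⟩
  · exact (isClosed_Lev hE.isClosed G.cont t').sdiff hV
  · have : Lev E L t' \ (Lev E L t' \ V) = Lev E L t' \ (U ∩ O E L) := by
      ext w
      simp only [mem_sdiff, mem_inter_iff, not_and, not_not]
      constructor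
      · rintro ⟨h1, h2⟩
        refine ⟨h1, fun hwU => ?_⟩
        exact absurd (h2 h1) (fun hwV => hUV.le_bot ⟨hwU, hwV⟩)
      · rintro ⟨h1, h2⟩
        refine ⟨h1, fun _ => ?_⟩
        rcases hcov h1 with h3 | h3
        · exact absurd h3.2 (h2 h3.1)
        · exact h3
    rw [this]
    exact (isClosed_Lev hE.isClosed G.cont t').sdiff (hU.inter (isOpen_O E L))
  · refine ⟨⟨G.hxE, ?_⟩, fun hxV => hUV.le_bot ⟨hDU hxD, hxV⟩⟩
    show t' ≤ L x
    rw [G.hx]
    linarith
  · rintro w ⟨hw, hwV⟩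
    rcases hcov hw with h3 | h3
    · obtain ⟨r, hr, hb⟩ := h3.2
      exact hb w ⟨mem_ball_self hr, hw.1⟩
    · exact absurd h3 hwV

/-- Points joined to `x` in some level set strictly above `t`. -/
def Reach (E : Set (Eu d)) (L : Eu d → ℝ) (x : Eu d) (t : ℝ) : Set (Eu d) :=
  {g | ∃ s, t < s ∧ s ≤ 0 ∧ ∃ S : Set (Eu d), IsPreconnected S ∧ S ⊆ Lev E L s ∧ x ∈ S ∧ g ∈ S}

lemma P_closed (hE : IsCompact E) {L : Eu d → ℝ} {x : Eu d} (G : Good E L x) {t : ℝ}
    (ht : t < 0) (h : ∀ s, t < s → s ≤ 0 → P E L x s) : P E L x t := by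
  have hneg : ∀ g ∈ Reach E L x t, L g ≤ 0 := by
    rintro g ⟨s, hts, hs0, S, hS, hSX, hxS, hgS⟩
    obtain ⟨D, hD, hF, hDX, hxD, hn⟩ := h s hts hs0
    exact hn g (subset_of_preconn hS hD hF hSX hxS hxD hgS)
  have hsub : Reach E L x t ⊆ Lev E L t := by
    rintro g ⟨s, hts, hs0, S, hS, hSX, hxS, hgS⟩
    exact ⟨(hSX hgS).1, hts.le.trans (hSX hgS).2⟩
  have hXc := isClosed_Lev hE.isClosed G.cont t
  have hxR : x ∈ Reach E L x t := by
    refine ⟨0, ht, le_rfl, {x}, isPreconnected_singleton, ?_, rfl, rfl⟩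
    rintro w rfl
    exact ⟨G.hxE, by simp [G.hx]⟩
  -- extension by a segment
  have hext : ∀ g ∈ Reach E L x t, ∀ v, segment ℝ g v ⊆ E → t < L v → v ∈ Reach E L x t := by
    rintro g ⟨s, hts, hs0, S, hS, hSX, hxS, hgS⟩ v hseg hv
    refine ⟨min s (L v), lt_min hts hv, (min_le_left _ _).trans hs0, S ∪ segment ℝ g v, ?_, ?_,
      Or.inl hxS, Or.inr (right_mem_segment ℝ g v)⟩
    · exact hS.union g hgS (left_mem_segment ℝ g v) (convex_segment g v).isPreconnected
    · rintro w (hw | hw)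
      · have h2 : s ≤ L w := (hSX hw).2
        exact ⟨(hSX hw).1, show min s (L v) ≤ L w from (min_le_left _ _).trans h2⟩
      · have h2 : s ≤ L g := (hSX hgS).2
        exact ⟨hseg hw, seg_L G.aff ((min_le_left _ _).trans h2) (min_le_right _ _) hw⟩
  have hLreach : ∀ g ∈ Reach E L x t, t < L g := by
    rintro g ⟨s, hts, hs0, S, hS, hSX, hxS, hgS⟩
    exact hts.trans_le (hSX hgS).2
  -- closure is relatively open
  have hopen : ∀ w ∈ closure (Reach E L x t), ∃ r : ℝ, 0 < r ∧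
      ball w r ∩ Lev E L t ⊆ closure (Reach E L x t) := by
    intro w hw
    have hwX : w ∈ Lev E L t := by
      have := closure_mono hsub hw
      rwa [hXc.closure_eq] at this
    by_cases hl : LNC E w
    · exfalso
      obtain ⟨a, ⟨haE, r, hr, hsee⟩, ha⟩ := G.star w hl
      obtain ⟨g, hgR, hg⟩ := Metric.mem_closure_iff.1 hw r hr
      have hs : segment ℝ a g ⊆ E := hsee g ⟨by rwa [mem_ball, dist_comm], (hsub hgR).1⟩
      rw [segment_symm] at hs
      have := hneg a (hext g hgR a hs (by linarith))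
      linarith
    · obtain ⟨r, hr, hc⟩ := exists_convex_ball hwX.1 hl
      obtain ⟨g, hgR, hg⟩ := Metric.mem_closure_iff.1 hw r hr
      have hgB : g ∈ ball w r ∩ E := ⟨by rwa [mem_ball, dist_comm], (hsub hgR).1⟩
      refine ⟨r, hr, ?_⟩
      rintro v ⟨hvB, hvE, hvL⟩
      have hvL' : t ≤ L v := hvL
      have hseg : segment ℝ g v ⊆ E :=
        (hc.segment_subset hgB ⟨hvB, hvE⟩).trans inter_subset_right
      rcases hvL'.lt_or_eq with hlt | heq
      · exact subset_closure (hext g hgR v hseg hlt)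
      · -- limit of points v + s (g - v)
        have hcont : Continuous (fun s : ℝ => v + s • (g - v)) := by fun_prop
        have h0 : (fun s : ℝ => v + s • (g - v)) 0 = v := by simp
        have hv : v ∈ closure ((fun s : ℝ => v + s • (g - v)) '' Ioc 0 1) := by
          have h01 : (0 : ℝ) ∈ closure (Ioc (0 : ℝ) 1) := by
            rw [closure_Ioc (by norm_num)]
            exact ⟨le_rfl, zero_le_one⟩
          have := image_closure_subset_closure_image hcont (mem_image_of_mem _ h01)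
          simpa using this
        refine closure_mono ?_ hv
        rintro _ ⟨s, ⟨hs0, hs1⟩, rfl⟩
        apply hext g hgR
        · have hm : v + s • (g - v) ∈ ball w r ∩ E :=
            hc.segment_subset ⟨hvB, hvE⟩ hgB (mem_seg v g hs0.le hs1)
          exact (hc.segment_subset hgB hm).trans inter_subset_right
        · rw [G.aff, ← heq]
          nlinarith [hLreach g hgR]
  refine ⟨closure (Reach E L x t), isClosed_closure, ?_, ?_, subset_closure hxR, ?_⟩
  · -- closedness of the complement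
    rw [← isOpen_compl_iff] at *
    rw [Metric.isOpen_iff]
    intro w hw
    by_cases hwX : w ∈ Lev E L t
    · have hwC : w ∈ closure (Reach E L x t) := by
        by_contra hn
        exact hw ⟨hwX, hn⟩
      obtain ⟨r, hr, hb⟩ := hopen w hwC
      refine ⟨r, hr, ?_⟩
      rintro v hv ⟨hvX, hvC⟩
      exact hvC (hb ⟨hv, hvX⟩)
    · obtain ⟨r, hr, hb⟩ := Metric.isOpen_iff.1 hXc w hwX
      refine ⟨r, hr, ?_⟩
      rintro v hv ⟨hvX, _⟩
      exact hb hv hvX
  · have := closure_mono hsub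
    rwa [(isClosed_Lev hE.isClosed G.cont t).closure_eq] at this
  · intro w hw
    have : closure (Reach E L x t) ⊆ {w | L w ≤ 0} :=
      closure_minimal hneg (isClosed_le G.cont continuous_const)
    exact this hw

/-- The propagation lemma: under the standing assumptions `L ≤ 0` on all of `E`. -/
lemma propagate (hE : IsCompact E) (hconn : IsPreconnected E) {L : Eu d → ℝ} {x : Eu d}
    (G : Good E L x) : ∀ w ∈ E, L w ≤ 0 := by
  obtain ⟨m0, hm0E, hmin⟩ := hE.exists_isMinOn ⟨x, G.hxE⟩ G.cont.continuousOn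
  set m := L m0 with hm
  have hm0 : m ≤ 0 := by
    have : L m0 ≤ L x := hmin G.hxE
    rw [G.hx] at this
    exact this
  have hPm : P E L x m := by
    by_contra hnot
    set T : Set ℝ := {t | m ≤ t ∧ t ≤ 0 ∧ P E L x t} with hT
    have hT0 : (0 : ℝ) ∈ T := ⟨hm0, le_rfl, P_zero hE.isClosed G⟩
    have hbdd : BddBelow T := ⟨m, fun t ht => ht.1⟩
    set τ := sInf T with hτ
    have hτm : m ≤ τ := le_csInf ⟨0, hT0⟩ (fun t ht => ht.1)
    have hτ0 : τ ≤ 0 := csInf_le hbdd hT0
    have hP : P E L x τ := by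
      rcases hτ0.lt_or_eq with hlt | heq
      · apply P_closed hE G hlt
        intro s hs hs0
        obtain ⟨t, htT, hts⟩ := exists_lt_of_csInf_lt ⟨0, hT0⟩ hs
        exact P_mono G hts.le hs0 htT.2.2
      · rw [heq]; exact hT0.2.2
    rcases hτm.lt_or_eq with hlt | heq
    · obtain ⟨t', ht', hP'⟩ := P_open hE G hτ0 hP
      have hmem : max m t' ∈ T := by
        refine ⟨le_max_left _ _, max_le hm0 (by linarith), ?_⟩
        exact P_mono G (le_max_right _ _) (max_le hm0 (by linarith)) hP'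
      have := csInf_le hbdd hmem
      have : max m t' < τ := max_lt hlt ht'
      linarith
    · rw [← heq] at hP
      exact hnot hP
  obtain ⟨D, hD, hF, hDX, hxD, hneg⟩ := hPm
  have hEX : E ⊆ Lev E L m := fun w hw => ⟨hw, hmin hw⟩
  intro w hw
  exact hneg w (subset_of_preconn hconn hD hF hEX G.hxE hxD hw)

end H791.Star
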