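import Pool.Agent.H791_Star.Core

/-!
# The touching ball lemma and the main theorem
-/

namespace H791.Star

open Set Metric Topology

variable {d : ℕ} {E : Set (Eu d)}

/-- Touching lemma: if `p` does not see the point `y` of the compact set `E`, then there are a
point `x` of `E` and a vector `v` with `⟪v, p - x⟫ > 0` such that every point `w` seeing `x`
satisfies `⟪v, w - x⟫ ≤ 0`. -/
lemma touching (hE : IsCompact E) {p y : Eu d} (hy : y ∈ E) (hns : ¬ Sees E p y) :
    ∃ x ∈ E, ∃ v : Eu d, 0 < inner ℝ v (p - x) ∧ ∀ w, Sees E w x → inner ℝ v (w - x) ≤ 0 := by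
  obtain ⟨u, huseg, huE⟩ : ∃ u ∈ segment ℝ p y, u ∉ E := by
    by_contra h
    push Not at h
    exact hns h
  rw [segment_eq_image'] at huseg
  obtain ⟨σ, ⟨hσ0, hσ1⟩, hu⟩ := huseg
  simp only at hu
  have hσlt : σ < 1 := by
    rcases hσ1.lt_or_eq with h | h
    · exact h
    · exfalso
      apply huE
      rw [← hu, h]
      simpa using hy
  -- distance from u to E
  obtain ⟨δ, hδ, hδb⟩ := Metric.isOpen_iff.1 hE.isClosed.isOpen_compl u huE
  have hδE : ∀ x ∈ E, δ ≤ ‖u - x‖ := by
    intro x hx
    by_contra hlt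
    push Not at hlt
    have : x ∈ ball u δ := by rw [mem_ball, dist_comm, dist_eq_norm]; exact hlt
    exact hδb this hx
  set lam : ℝ := δ ^ 2 / 2 with hlam
  have hlam0 : 0 < lam := by positivity
  -- minimise F
  set F : ℝ × Eu d → ℝ := fun q => ‖u + q.1 • (y - u) - q.2‖ ^ 2 + lam * q.1 with hF
  have hFc : Continuous F := by fun_prop
  have hcomp : IsCompact (Icc (0 : ℝ) 1 ×ˢ E) := isCompact_Icc.prod hE
  obtain ⟨⟨t, x⟩, ⟨ht, hx⟩, hmin⟩ := hcomp.exists_isMinOn
    ⟨((1 : ℝ), y), ⟨⟨zero_le_one, le_rfl⟩, hy⟩⟩ hFc.continuousOn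
  simp only at ht hx
  have hmin' : ∀ s ∈ Icc (0 : ℝ) 1, ∀ z ∈ E, F (t, x) ≤ F (s, z) := by
    intro s hs z hz
    exact hmin (show (s, z) ∈ Icc (0 : ℝ) 1 ×ˢ E from ⟨hs, hz⟩)
  have ht0 : 0 < t := by
    rcases ht.1.lt_or_eq with h | h
    · exact h
    · exfalso
      have h1 := hmin' 1 ⟨zero_le_one, le_rfl⟩ y hy
      simp only [hF, ← h] at h1
      have h2 := hδE x hx
      have h3 : ‖u + (1 : ℝ) • (y - u) - y‖ = 0 := by
        rw [norm_eq_zero, one_smul]; abel
      rw [h3] at h1
      simp only [zero_smul, add_zero] at h1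
      have h4 : δ ^ 2 ≤ ‖u - x‖ ^ 2 := by gcongr
      rw [hlam] at h1
      nlinarith [sq_nonneg δ, hδ]
  set c : Eu d := u + t • (y - u) with hc
  -- derivative condition
  have hder : inner ℝ (c - x) (y - u) ≤ -(lam / 2) := by
    have key : ∀ η : ℝ, 0 < η → η ≤ t →
        inner ℝ (c - x) (y - u) ≤ -(lam / 2) + η * ‖y - u‖ ^ 2 / 2 := by
      intro η hη hηt
      have h1 := hmin' (t - η) ⟨by linarith, by linarith [ht.2]⟩ x hx
      simp only [hF] at h1
      have h2 : u + (t - η) • (y - u) - x = (c - x) - η • (y - u) := by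
        rw [hc, sub_smul]; abel
      rw [h2, ← hc] at h1
      rw [norm_sub_sq_real (c - x) (η • (y - u)), norm_smul, inner_smul_right, Real.norm_eq_abs,
        abs_of_pos hη] at h1
      have h3 : η * (2 * inner ℝ (c - x) (y - u)) ≤ η * (-lam + η * ‖y - u‖ ^ 2) := by
        nlinarith
      have h4 := le_of_mul_le_mul_left h3 hη
      linarith
    by_contra hlt
    push Not at hlt
    set a := inner ℝ (c - x) (y - u) with ha
    set b := ‖y - u‖ ^ 2 with hb
    have hb0 : 0 ≤ b := by positivity
    set η := min t ((a + lam / 2) / (b + 1)) with hη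
    have hpos : 0 < a + lam / 2 := by linarith
    have hη0 : 0 < η := lt_min ht0 (by positivity)
    have h5 := key η hη0 (min_le_left _ _)
    have h6 : η ≤ (a + lam / 2) / (b + 1) := min_le_right _ _
    have h7 : η * (b + 1) ≤ a + lam / 2 := by
      rwa [le_div_iff₀ (by positivity)] at h6
    nlinarith
  have hcx : 0 < ‖c - x‖ ^ 2 := by
    have : c - x ≠ 0 := by
      intro h0
      rw [h0, inner_zero_left] at hder
      linarith
    positivity
  -- nearest point property
  have hnear : ∀ z ∈ E, ‖c - x‖ ^ 2 ≤ ‖c - z‖ ^ 2 := by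
    intro z hz
    have h1 := hmin' t ht z hz
    simp only [hF] at h1
    linarith
  refine ⟨x, hx, c - x, ?_, ?_⟩
  · -- p - x = (p - c) + (c - x), p - c = - μ (y - u)
    have hyu : y - u = (1 - σ) • (y - p) := by
      rw [← hu, sub_smul, one_smul]; abel
    have hpu : p - u = -(σ / (1 - σ)) • (y - u) := by
      rw [hyu, smul_smul]
      have : -(σ / (1 - σ)) * (1 - σ) = -σ := by
        have : (1 - σ) ≠ 0 := by linarith
        field_simp
      rw [this, ← hu, neg_smul]; abel
    have hpx : p - x = (-(σ / (1 - σ) + t)) • (y - u) + (c - x) := by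
      have : p - x = (p - u) + (u - c) + (c - x) := by abel
      rw [this, hpu, hc]
      have h2 : u - (u + t • (y - u)) = -(t • (y - u)) := by abel
      rw [h2, neg_smul, neg_smul, add_smul]; abel
    rw [hpx, inner_add_right, inner_smul_right, real_inner_self_eq_norm_sq]
    have h1 : 0 ≤ σ / (1 - σ) := div_nonneg hσ0 (by linarith)
    have h2 : 0 < σ / (1 - σ) + t := by linarith
    nlinarith
  · intro w hw
    by_contra hpos
    push Not at hpos
    set a := inner ℝ (c - x) (w - x) with ha
    set b := ‖w - x‖ ^ 2 with hb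
    have hb0 : 0 ≤ b := by positivity
    set s := min 1 (a / (b + 1)) with hs
    have hs0 : 0 < s := lt_min one_pos (by positivity)
    have hs1 : s ≤ 1 := min_le_left _ _
    have hmem : x + s • (w - x) ∈ E := by
      have := mem_seg x w hs0.le hs1
      rw [segment_symm] at this
      exact hw this
    have h1 := hnear _ hmem
    have h2 : c - (x + s • (w - x)) = (c - x) - s • (w - x) := by abel
    rw [h2, norm_sub_sq_real (c - x) (s • (w - x)), norm_smul, inner_smul_right,
      Real.norm_eq_abs, abs_of_pos hs0] at h1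
    have h3 : s * (b + 1) ≤ a := by
      have : s ≤ a / (b + 1) := min_le_right _ _
      rwa [le_div_iff₀ (by positivity)] at this
    nlinarith

/-- The closed convex hull of the set of points from which `z` is clearly visible. -/
def K (E : Set (Eu d)) (z : Eu d) : Set (Eu d) :=
  closure (convexHull ℝ {w | ClearlySees E w z})

lemma K_compact (hE : IsCompact E) (z : Eu d) : IsCompact (K E z) := by
  have hb : Bornology.IsBounded (convexHull ℝ {w | ClearlySees E w z}) := by
    rw [isBounded_convexHull]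
    exact hE.isBounded.subset (fun w hw => hw.1)
  exact hb.isCompact_closure

lemma K_convex (z : Eu d) : Convex ℝ (K E z) := (convex_convexHull ℝ _).closure

/-- Any finite family of at most `d + 1` of the sets `K E z` has a common point. -/
lemma inter_K (hC : PropC (d + 1) E) (I : Finset {z // LNC E z}) (hI : I.card ≤ d + 1) :
    (⋂ z ∈ I, K E z.1).Nonempty := by
  rcases I.eq_empty_or_nonempty with rfl | hne
  · simp
  · obtain ⟨z0, hz0⟩ := hne
    let f : Fin (d + 1) → {z // LNC E z} := fun i =>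
      if h : i.1 < I.card then (I.equivFin.symm ⟨i.1, h⟩).1 else z0
    have hf : ∀ z ∈ I, ∃ i, f i = z := by
      intro z hz
      refine ⟨⟨(I.equivFin ⟨z, hz⟩).1, lt_of_lt_of_le (I.equivFin ⟨z, hz⟩).2 hI⟩, ?_⟩
      show (if h : (I.equivFin ⟨z, hz⟩).1 < I.card then
        (I.equivFin.symm ⟨(I.equivFin ⟨z, hz⟩).1, h⟩).1 else z0) = z
      rw [dif_pos (I.equivFin ⟨z, hz⟩).2]
      show (I.equivFin.symm (I.equivFin ⟨z, hz⟩)).1 = z
      rw [Equiv.symm_apply_apply]
    obtain ⟨y, hy⟩ := hC (fun i => (f i).1) (fun i => (f i).2)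
    refine ⟨y, ?_⟩
    simp only [mem_iInter]
    intro z hz
    obtain ⟨i, hi⟩ := hf z hz
    have h1 := hy i
    have h2 : (f i).1 = z.1 := by rw [hi]
    rw [h2] at h1
    exact subset_closure (subset_convexHull ℝ _ h1)

lemma helly_K (hE : IsCompact E) (hC : PropC (d + 1) E) :
    (⋂ z : {z // LNC E z}, K E z.1).Nonempty := by
  have h1 : ∀ z : {z // LNC E z}, Convex ℝ (K E z.1) := fun z => K_convex z.1
  have h2 : ∀ z : {z // LNC E z}, IsCompact (K E z.1) := fun z => K_compact hE z.1
  have hfin : Module.finrank ℝ (Eu d) = d := finrank_euclideanSpace_fin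
  have h3 : ∀ I : Finset {z // LNC E z}, I.card ≤ Module.finrank ℝ (Eu d) + 1 →
      (⋂ z ∈ I, K E z.1).Nonempty := by
    intro I hI
    rw [hfin] at hI
    exact inter_K hC I hI
  exact Convex.helly_theorem_compact' (𝕜 := ℝ) (F := fun z : {z // LNC E z} => K E z.1) h1 h2 h3

/-- **Main theorem.** -/
theorem main (hE : IsCompact E) (hconn : IsConnected E) (hC : PropC (d + 1) E) :
    Starshaped E := by
  -- choice of the point p
  obtain ⟨p, hp, hpE⟩ : ∃ p : Eu d, (∀ z, LNC E z → p ∈ K E z) ∧
      ((∀ z, ¬ LNC E z) → p ∈ E) := by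
    by_cases hQ : ∀ z, ¬ LNC E z
    · obtain ⟨p, hp⟩ := hconn.nonempty
      exact ⟨p, fun z hz => absurd hz (hQ z), fun _ => hp⟩
    · have hinter : (⋂ z : {z // LNC E z}, K E z.1).Nonempty :=
        helly_K hE hC
      obtain ⟨p, hp⟩ := hinter
      refine ⟨p, fun z hz => ?_, fun h => absurd h hQ⟩
      exact mem_iInter.1 hp ⟨z, hz⟩
  have hsee : ∀ y ∈ E, Sees E p y := by
    intro y hy
    by_contra hns
    obtain ⟨x, hx, v, hpv, hv⟩ := touching hE hy hns
    set L : Eu d → ℝ := fun w => inner ℝ v (w - x) with hL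
    have hLc : Continuous L := by fun_prop
    have haff : ∀ a b : Eu d, ∀ s : ℝ, L (a + s • (b - a)) = L a + s * (L b - L a) := by
      intro a b s
      simp only [hL]
      rw [← inner_sub_right]
      have h1 : b - x - (a - x) = b - a := by abel
      have h2 : a + s • (b - a) - x = (a - x) + s • (b - a) := by abel
      rw [h1, h2, inner_add_right, inner_smul_right]
    by_cases hstar : ∀ z, LNC E z → ∃ w, ClearlySees E w z ∧ 0 < L w
    · have G : Good E L x := ⟨hLc, haff, hx, by simp [hL], fun w hw => hv w hw, hstar⟩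
      have hneg := propagate hE hconn.isPreconnected G
      by_cases hQ : ∀ z, ¬ LNC E z
      · have := hneg p (hpE hQ)
        have hpv' : 0 < L p := hpv
        linarith
      · push Not at hQ
        obtain ⟨z, hz⟩ := hQ
        obtain ⟨w, hw, hLw⟩ := hstar z hz
        have := hneg w hw.1
        linarith
    · push Not at hstar
      obtain ⟨z, hz, hzn⟩ := hstar
      have hsub : {w | ClearlySees E w z} ⊆ {w | L w ≤ 0} := fun w hw => hzn w hw
      have hconvL : Convex ℝ {w : Eu d | L w ≤ 0} := by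
        rw [convex_iff_segment_subset]
        intro a ha b hb w hw
        rw [segment_eq_image'] at hw
        obtain ⟨s, ⟨h0, h1⟩, rfl⟩ := hw
        have ha' : L a ≤ 0 := ha
        have hb' : L b ≤ 0 := hb
        show L (a + s • (b - a)) ≤ 0
        rw [haff]
        nlinarith
      have hK : K E z ⊆ {w | L w ≤ 0} :=
        closure_minimal (convexHull_min hsub hconvL) (isClosed_le hLc continuous_const)
      have h1 : L p ≤ 0 := hK (hp z hz)
      have hpv' : 0 < L p := hpv
      linarith
  obtain ⟨y0, hy0⟩ := hconn.nonempty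
  exact ⟨p, hsee y0 hy0 (left_mem_segment ℝ p y0), hsee⟩

end H791.Star
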